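import Pool.Agent.Y713.SE.Stm

/-!
# Jacobians of hyperelliptic curves `y ^ 2 = F(x)`, `deg F` odd, and their Tate-Shafarevich groups

The definitions of `Pool.Agent.Y713.Jac` for `ℓ = 2` in a form which prints shortly.

`F` is a polynomial of odd degree over `K` without multiple roots, and `J` is the Jacobian of the curve
`y ^ 2 = F(x)`. The smooth projective model has one point at infinity, which is rational, so that `J(L)`
is the Picard group of the affine coordinate ring `L[x, y] / (y ^ 2 - F)`.
-/

set_option autoImplicit false
set_option linter.all false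

open Polynomial IsDedekindDomain

namespace Pool.Agent.N874.Jac

section basic

variable {K : Type} [Field K] (F : K[X])

/-- The affine coordinate ring `L[x, y] / (y ^ 2 - F(x))` over an extension `L` of `K`. -/
def CoordRing (L : Type) [Field L] [Algebra K L] : Type :=
  AdjoinRoot (X ^ 2 - C (F.map (algebraMap K L)) : L[X][X])

noncomputable instance instCommRing (L : Type) [Field L] [Algebra K L] :
    CommRing (CoordRing F L) :=
  AdjoinRoot.instCommRing _

/-- The homomorphism of coordinate rings given by a homomorphism of extensions of `K`. -/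
noncomputable def coordMap {L L' : Type} [Field L] [Algebra K L] [Field L'] [Algebra K L']
    (φ : L →ₐ[K] L') : CoordRing F L →+* CoordRing F L' :=
  AdjoinRoot.map (mapRingHom φ.toRingHom) _ _ (by
    rw [Polynomial.map_sub, Polynomial.map_pow, map_X, map_C, coe_mapRingHom, Polynomial.map_map]
    rw [show φ.toRingHom.comp (algebraMap K L) = algebraMap K L' from φ.comp_algebraMap])

/-- The group `J(L)`, written multiplicatively. -/
def J (L : Type) [Field L] [Algebra K L] : Type := CommRing.Pic (CoordRing F L)

noncomputable instance instCommGroup (L : Type) [Field L] [Algebra K L] : CommGroup (J F L) :=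
  instCommGroupPic (CoordRing F L)

/-- The homomorphism `J(L) → J(L')` given by a homomorphism of extensions of `K`. -/
noncomputable def mapJ {L L' : Type} [Field L] [Algebra K L] [Field L'] [Algebra K L']
    (φ : L →ₐ[K] L') : J F L →* J F L' :=
  CommRing.Pic.mapRingHom (coordMap F φ)

/-- Continuous 1-cocycles of the group of automorphisms of `Ω` over `K` with values in the discrete
group `J(Ω)`. -/
def IsCocycle {Ω : Type} [Field Ω] [Algebra K Ω] (c : (Ω ≃ₐ[K] Ω) → J F Ω) : Prop :=
  IsLocallyConstant c ∧ ∀ σ τ : Ω ≃ₐ[K] Ω, c (σ * τ) = c σ * mapJ F σ.toAlgHom (c τ)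

/-- Coboundaries. -/
def IsCoboundary {Ω : Type} [Field Ω] [Algebra K Ω] (c : (Ω ≃ₐ[K] Ω) → J F Ω) : Prop :=
  ∃ Q : J F Ω, ∀ σ : Ω ≃ₐ[K] Ω, c σ = mapJ F σ.toAlgHom Q / Q

/-- The restriction of the class of the cocycle `c` to the group of automorphisms of `Ω'` over `E` is
zero: for an embedding `ι : Ω → Ω'` over `K` there is `P ∈ J(Ω')` with `c(τ|Ω) = τ P / P` for every
automorphism `τ` of `Ω'` over `E`. -/
def SplitsIn {Ω : Type} [Field Ω] [Algebra K Ω] (E Ω' : Type) [Field E] [Field Ω'] [Algebra E Ω']
    [Algebra K E] [Algebra K Ω'] [IsScalarTower K E Ω'] (c : (Ω ≃ₐ[K] Ω) → J F Ω) : Prop :=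
  ∃ (ι : Ω →ₐ[K] Ω') (P : J F Ω'), ∀ (τ : Ω' ≃ₐ[E] Ω') (σ : Ω ≃ₐ[K] Ω),
    (∀ x : Ω, τ (ι x) = ι (σ x)) →
    mapJ F ι (c σ) = mapJ F (τ.toAlgHom.restrictScalars K) P / P

end basic

section sha

variable {K : Type} [Field K] (F : K[X])

/-- The absolute Galois group of `K`. -/
abbrev Gal (K : Type) [Field K] : Type := SeparableClosure K ≃ₐ[K] SeparableClosure K

/-- Functions on the absolute Galois group of `K` with values in `J(K^sep)`. -/
abbrev Cochain : Type := Gal K → J F (SeparableClosure K)

variable {F}

/-- Continuous 1-cocycles on the absolute Galois group with values in the discrete group `J(K^sep)`. -/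
def Cocycle (c : Cochain F) : Prop := IsCocycle F c

/-- Coboundaries with values in `J(K^sep)`. -/
def Coboundary (c : Cochain F) : Prop := IsCoboundary F c

/-- The function `c ^ n`. -/
noncomputable def power (c : Cochain F) (n : ℕ) : Cochain F := fun σ => c σ ^ n

/-- The restriction of the class of the cocycle `c` to `H ^ 1 (E, J)` is zero. -/
def TrivialOver (E : Type) [Field E] [Algebra K E] (c : Cochain F) : Prop :=
  SplitsIn F E (SeparableClosure E) c

/-- The class of `c` is zero over the completion of `K` at every maximal ideal of the Dedekind ring `R`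
with field of fractions `K`. -/
def TrivialAtPrimes (R : Type) [CommRing R] [IsDedekindDomain R] [Algebra R K] [IsFractionRing R K]
    (c : Cochain F) : Prop :=
  ∀ v : HeightOneSpectrum R, TrivialOver (v.adicCompletion K) c

/-- The class of `c` is zero over the real numbers, for every embedding of `K` in the real numbers. -/
def TrivialAtReals (c : Cochain F) : Prop :=
  ∀ ρ : K →+* ℝ, letI := ρ.toAlgebra; TrivialOver ℝ c

variable (F)

/-- Multiplication by two on `J(K)` (written multiplicatively) is bijective. -/
def UniquelyTwoDivisible : Prop := Function.Bijective fun P : J F K => P ^ 2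

/-- The 2-primary part of the group of the classes in `H ^ 1 (K, J)` which are zero over the completions
of `K` at all maximal ideals of the Dedekind ring `R` is zero. -/
def ShaTwoTrivial (R : Type) [CommRing R] [IsDedekindDomain R] [Algebra R K] [IsFractionRing R K] :
    Prop :=
  ∀ (c : Cochain F) (m : ℕ), Cocycle c → TrivialAtPrimes R c → Coboundary (power c (2 ^ m)) →
    Coboundary c

/-- The 2-primary part of the group of the classes in `H ^ 1 (K, J)` which are zero over the completions
of `K` at all maximal ideals of the Dedekind ring `R` and over the real numbers, for all embeddings of `K`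
in the real numbers, is zero. -/
def ShaTwoTrivialReal (R : Type) [CommRing R] [IsDedekindDomain R] [Algebra R K]
    [IsFractionRing R K] : Prop :=
  ∀ (c : Cochain F) (m : ℕ), Cocycle c → TrivialAtPrimes R c → TrivialAtReals c →
    Coboundary (power c (2 ^ m)) → Coboundary c

end sha

/-! ### Comparison -/

section cmp

variable {K : Type} [Field K] (F : K[X])

theorem div_of (h : Function.Bijective fun P : Pool.Agent.Y713.Jac.J 2 F K => P ^ 2) :
    UniquelyTwoDivisible F := h

theorem coc_iff (c : Cochain F) : Cocycle c ↔ Pool.Agent.Y713.Jac.IsCocycle 2 F c := Iff.rfl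

theorem cob_iff (c : Cochain F) : Coboundary c ↔ Pool.Agent.Y713.Jac.IsCoboundary 2 F c := Iff.rfl

theorem triv_iff (E : Type) [Field E] [Algebra K E] (c : Cochain F) :
    TrivialOver E c ↔ Pool.Agent.Y713.Jac.IsTrivialOver 2 F E c := Iff.rfl

theorem sha_of (R : Type) [CommRing R] [IsDedekindDomain R] [Algebra R K] [IsFractionRing R K]
    (h : Pool.Agent.Y713.Jac.ShaPrimaryTrivial 2 F R) : ShaTwoTrivial F R :=
  fun c m h1 h2 h3 => h c m h1 h2 h3

end cmp

end Pool.Agent.N874.Jac
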